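import Pool.Agent.R340.SG.SysLine
import Pool.Agent.TH295.FO.Zero
import Pool.Agent.R927.OK3

set_option autoImplicit false

/-!
Factorial cancellation and the `p`-curvature: the matrices `A_m` with `A_0 = 1` and
`A_{m + 1} = A_m' + A_m A`, so that the solutions of `y' = A y` satisfy `y ^ (m) = A_m y`.
-/

open Polynomial Pool.Agent.W432.PC

namespace Pool.Agent.R340.CF

section defs

/-- The matrices `A_m` of the system `y' = M y`: `A_0 = 1` and `A_{m + 1} = A_m' + A_m M`. -/
noncomputable def iter {K : Type*} [Field K] {r : ℕ} (M : Matrix (Fin r) (Fin r) (RatFunc K)) :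
    ℕ → Matrix (Fin r) (Fin r) (RatFunc K)
  | 0 => 1
  | m + 1 => (iter M m).map (ddx K) + iter M m * M

variable {R : Type*} [CommRing R] [IsDomain R] {n r : ℕ}

/-- The inclusion of `R[z]` into `K(z)`, `K` the field of fractions of `R`. -/
noncomputable def toRat (R : Type*) [CommRing R] [IsDomain R] : R[X] →+* RatFunc (FractionRing R) :=
  (algebraMap (FractionRing R)[X] (RatFunc (FractionRing R))).comp
    (mapRingHom (algebraMap R (FractionRing R)))

/-- The polynomial `Δ = ∏ j, (z - α j)`. -/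
noncomputable def den (α : Fin n → R) : R[X] := ∏ j, (X - C (α j))

/-- The matrix `∑ j, A j / (z - α j)` over `K(z)`. -/
noncomputable def sysMat (α : Fin n → R) (A : Fin n → Matrix (Fin r) (Fin r) R) :
    Matrix (Fin r) (Fin r) (RatFunc (FractionRing R)) :=
  fun i l => ∑ j, toRat R (C (A j i l)) / toRat R (X - C (α j))

/-- The entries of `(N Δ) ^ m A_m / m!` are in `R[z]`. -/
def CancelsAt (α : Fin n → R) (A : Fin n → Matrix (Fin r) (Fin r) R) (N : R) (m : ℕ) : Prop :=
  ∀ i l, ∃ P : R[X], toRat R ((C N * den α) ^ m) * iter (sysMat α A) m i l / (m.factorial : ℕ) =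
    toRat R P

/-- Factorial cancellation: there is a nonzero `N` in `R` such that for all `m ≥ 1` the entries of
`(N Δ) ^ m A_m / m!` are in `R[z]`. -/
def Cancels (α : Fin n → R) (A : Fin n → Matrix (Fin r) (Fin r) R) : Prop :=
  ∃ N : R, N ≠ 0 ∧ ∀ m : ℕ, 1 ≤ m → CancelsAt α A N m

/-- There is a residue class modulo `B`, prime to `B`, such that for every nonzero `N` and all large
primes `p` in this class some entry of `(N Δ) ^ p A_p / p!` is not in `R[z]`. -/
def NoCancel (α : Fin n → R) (A : Fin n → Matrix (Fin r) (Fin r) R) (B : ℕ) : Prop :=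
  ∃ a : ℤ, IsCoprime a (B : ℤ) ∧ ∀ N : R, N ≠ 0 → ∃ P₀ : ℕ, ∀ p : ℕ, p.Prime → P₀ < p →
    (B : ℤ) ∣ a * p + 1 → ¬ CancelsAt α A N p

/-- The `p`-curvature vanishes (`F` a nonzero polynomial): the entries of `A_p` are in
`p R[z, 1 / F]`. -/
def PVanishes (α : Fin n → R) (A : Fin n → Matrix (Fin r) (Fin r) R) (F : R[X]) (p : ℕ) : Prop :=
  ∀ i l, ∃ (k : ℕ) (P : R[X]), iter (sysMat α A) p i l = (p : RatFunc (FractionRing R)) *
    (toRat R P / toRat R (F ^ k))

/-- The `p`-curvature vanishes for all but finitely many primes (for some nonzero polynomial `F` the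
entries of `A_p` are in `p R[z, 1 / F]` for all but finitely many `p`). -/
def VanishesAlmost (α : Fin n → R) (A : Fin n → Matrix (Fin r) (Fin r) R) : Prop :=
  ∃ F : R[X], F ≠ 0 ∧ {p : ℕ | p.Prime ∧ ¬ PVanishes α A F p}.Finite

/-- There is a residue class modulo `B`, prime to `B`, such that for every nonzero polynomial `F` and
all large primes `p` in this class some entry of `A_p` is not in `p R[z, 1 / F]`. -/
def NoVanish (α : Fin n → R) (A : Fin n → Matrix (Fin r) (Fin r) R) (B : ℕ) : Prop :=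
  ∃ a : ℤ, IsCoprime a (B : ℤ) ∧ ∀ F : R[X], F ≠ 0 → ∃ P₀ : ℕ, ∀ p : ℕ, p.Prime → P₀ < p →
    (B : ℤ) ∣ a * p + 1 → ¬ PVanishes α A F p

end defs

section field

variable {k : Type*} [Field k] {n r : ℕ} {α : Fin n → k} {A : Fin n → Matrix (Fin r) (Fin r) k}

lemma iter_eq (m : ℕ) (i l : Fin r) :
    (algebraMap k[X] (RatFunc k) (T α)) ^ m * iter (G α A) m i l =
      algebraMap k[X] (RatFunc k) (Q α (fun j => -(A j).transpose) m l i) := by
  induction m generalizing i l with
  | zero =>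
    simp only [pow_zero, one_mul, iter, Q]
    by_cases h : i = l
    · subst h; simp
    · rw [Matrix.one_apply_ne h, Matrix.one_apply_ne (Ne.symm h)]; simp
  | succ m ih =>
    set t := algebraMap k[X] (RatFunc k) (T α) with ht
    have h1 : iter (G α A) (m + 1) i l = ddx k (iter (G α A) m i l) +
        ∑ c, iter (G α A) m i c * G α A c l := by
      simp only [iter, Matrix.add_apply, Matrix.map_apply, Matrix.mul_apply]
    have h2 : ddx k (algebraMap k[X] (RatFunc k) (Q α (fun j => -(A j).transpose) m l i)) =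
        (m : RatFunc k) * t ^ (m - 1) * ddx k t * iter (G α A) m i l +
          t ^ m * ddx k (iter (G α A) m i l) := by
      rw [← ih i l, Derivation.leibniz, Derivation.leibniz_pow]
      simp only [smul_eq_mul, nsmul_eq_mul]
      ring
    rw [ddx_algebraMap] at h2
    have h3 : ddx k t = algebraMap k[X] (RatFunc k) (derivative (T α)) := ddx_algebraMap k _
    have h4 : Q α (fun j => -(A j).transpose) (m + 1) l i =
        T α * derivative (Q α (fun j => -(A j).transpose) m l i) -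
        (m : k[X]) * derivative (T α) * Q α (fun j => -(A j).transpose) m l i +
        ∑ c, B α A c l * Q α (fun j => -(A j).transpose) m c i := by
      simp only [Q, Matrix.sub_apply, Matrix.smul_apply, smul_eq_mul, Matrix.map_apply,
        Matrix.mul_apply, B_neg_transpose, Matrix.neg_apply, Matrix.transpose_apply, neg_mul,
        Finset.sum_neg_distrib, sub_neg_eq_add]
    rw [h4]
    simp only [map_add, map_sub, map_mul, map_sum, map_natCast]
    rw [h2, h3, h1, ← ht, mul_add, ← ih i l]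
    have h5 : t ^ (m + 1) * ∑ c, iter (G α A) m i c * G α A c l =
        ∑ c, algebraMap k[X] (RatFunc k) (B α A c l) *
          algebraMap k[X] (RatFunc k) (Q α (fun j => -(A j).transpose) m c i) := by
      rw [Finset.mul_sum]
      refine Finset.sum_congr rfl fun c _ => ?_
      rw [← ih i c, ← G_T, ← ht]
      ring
    rw [h5]
    have h6 : t * ((m : RatFunc k) * t ^ (m - 1) *
        algebraMap k[X] (RatFunc k) (derivative (T α)) * iter (G α A) m i l +
          t ^ m * ddx k (iter (G α A) m i l)) =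
        (m : RatFunc k) * algebraMap k[X] (RatFunc k) (derivative (T α)) *
          (t ^ m * iter (G α A) m i l) + t ^ (m + 1) * ddx k (iter (G α A) m i l) := by
      cases m with
      | zero => simp
      | succ m =>
        simp only [Nat.add_sub_cancel]
        ring
    rw [h6]
    ring

theorem pCurvZero_of_dual {p : ℕ} (hp : p.Prime) [CharP k p]
    (h : Q α (fun j => -(A j).transpose) p = 0) : PCurvZero α A := by
  haveI : Fact p.Prime := ⟨hp⟩
  let φ : k →+* AlgebraicClosure k := algebraMap k (AlgebraicClosure k)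
  haveI : CharP (AlgebraicClosure k) p := charP_of_injective_algebraMap φ.injective p
  have h1 : Q (fun j => φ (α j)) (fun j => -((A j).map φ).transpose) p = 0 := by
    have h2 := Q_map φ α (fun j => -(A j).transpose) p
    rw [h] at h2
    have h3 : (fun j => (-(A j).transpose).map φ) = fun j => -((A j).map φ).transpose := by
      funext j
      ext1 i l
      simp
    rw [h3] at h2
    rw [← h2]
    ext1 i l
    simp
  have h2 : Full (fun j => φ (α j)) (fun j => -((A j).map φ).transpose) := exists_full h1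
  have h3 : Full (fun j => φ (α j)) (fun j => (A j).map φ) := by
    have h4 := h2.dual (p := p)
    have h5 : (fun j => -(-((A j).map φ).transpose).transpose) = fun j => (A j).map φ := by
      funext j
      rw [Matrix.transpose_neg, Matrix.transpose_transpose, neg_neg]
    rw [h5] at h4
    exact h4
  have h5 := Q_eq_zero_of_pCurvZero (Pool.Agent.R927.pCurvZero_of_full hp h3)
  rw [ringChar.eq (AlgebraicClosure k) p] at h5
  have h6 : Q α A p = 0 := by
    have h7 := Q_map φ α A p
    rw [h5] at h7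
    ext1 i l
    have h8 := congrFun (congrFun h7 i) l
    simp only [Matrix.map_apply, Matrix.zero_apply, coe_mapRingHom] at h8
    rw [Matrix.zero_apply]
    exact (Polynomial.map_eq_zero_iff φ.injective).1 h8
  exact Pool.Agent.TH295.FO.pCurvZero_of_Q α A hp h6

end field

section rings

variable {R : Type*} [CommRing R] [IsDomain R] {n r : ℕ}

lemma toRat_injective : Function.Injective (toRat R) := by
  intro x y h
  have h1 := IsFractionRing.injective (FractionRing R)[X] (RatFunc (FractionRing R)) h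
  exact Polynomial.map_injective _ (IsFractionRing.injective R (FractionRing R)) h1

lemma toRat_ne {P : R[X]} (h : P ≠ 0) : toRat R P ≠ 0 :=
  (map_ne_zero_iff _ toRat_injective).2 h

lemma den_monic (α : Fin n → R) : (den α).Monic :=
  monic_prod_of_monic _ _ fun j _ => monic_X_sub_C (α j)

lemma sysMat_eq (α : Fin n → R) (A : Fin n → Matrix (Fin r) (Fin r) R) :
    sysMat α A = G (fun j => algebraMap R (FractionRing R) (α j))
      (fun j => (A j).map (algebraMap R (FractionRing R))) := by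
  ext1 i l
  simp only [sysMat, G, toRat, RingHom.comp_apply, coe_mapRingHom, Polynomial.map_C,
    Polynomial.map_sub, Polynomial.map_X, map_sub, RatFunc.algebraMap_C, RatFunc.algebraMap_X,
    Matrix.sum_apply, Matrix.smul_apply, Matrix.map_apply, smul_eq_mul]
  exact Finset.sum_congr rfl fun j _ => by rw [div_eq_mul_inv, mul_comm]

lemma toRat_den (α : Fin n → R) : toRat R (den α) =
    algebraMap _ (RatFunc (FractionRing R)) (T fun j => algebraMap R (FractionRing R) (α j)) := by
  have h := T_map (algebraMap R (FractionRing R)) α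
  rw [← h]
  rfl

lemma iter_toRat (α : Fin n → R) (A : Fin n → Matrix (Fin r) (Fin r) R) (m : ℕ) (i l : Fin r) :
    toRat R (den α) ^ m * iter (sysMat α A) m i l =
      toRat R (Q α (fun j => -(A j).transpose) m l i) := by
  rw [toRat_den, sysMat_eq, iter_eq]
  have h := Q_map (algebraMap R (FractionRing R)) α (fun j => -(A j).transpose) m
  have h3 : (fun j => (-(A j).transpose).map (algebraMap R (FractionRing R))) =
      fun j => -((A j).map (algebraMap R (FractionRing R))).transpose := by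
    funext j
    ext1 i l
    simp
  rw [h3] at h
  rw [← h]
  rfl

/-- The reduction modulo a closed point. -/
theorem zeroAt_of_mul {α : Fin n → R} {A : Fin n → Matrix (Fin r) (Fin r) R} {p : ℕ}
    (hp : p.Prime) (𝔪 : Ideal R) [𝔪.IsMaximal] (hpm : (p : R) ∈ 𝔪)
    (h : ∀ i l, ∃ F P : R[X], F.map (Ideal.Quotient.mk 𝔪) ≠ 0 ∧
      F * Q α (fun j => -(A j).transpose) p i l = (p : R[X]) * P) : PCurvZeroAt α A 𝔪 := by
  letI : Field (R ⧸ 𝔪) := Ideal.Quotient.field 𝔪
  have hp0 : ((p : ℕ) : R ⧸ 𝔪) = 0 := by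
    have h1 := Ideal.Quotient.eq_zero_iff_mem.2 hpm
    simpa using h1
  haveI : CharP (R ⧸ 𝔪) p := by
    refine (CharP.charP_iff_prime_eq_zero hp).2 hp0
  change PCurvZero (fun j => Ideal.Quotient.mk 𝔪 (α j))
    (fun j => (A j).map (Ideal.Quotient.mk 𝔪))
  refine pCurvZero_of_dual (p := p) hp ?_
  have h2 := Q_map (Ideal.Quotient.mk 𝔪) α (fun j => -(A j).transpose) p
  have h3 : (fun j => (-(A j).transpose).map (Ideal.Quotient.mk 𝔪)) =
      fun j => -((A j).map (Ideal.Quotient.mk 𝔪)).transpose := by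
    funext j
    ext1 i l
    simp
  rw [h3] at h2
  rw [← h2]
  ext1 i l
  obtain ⟨F, P, hF, hFP⟩ := h i l
  have h4 := congrArg (Polynomial.map (Ideal.Quotient.mk 𝔪)) hFP
  rw [Polynomial.map_mul, Polynomial.map_mul, Polynomial.map_natCast] at h4
  have h5 : ((p : ℕ) : (R ⧸ 𝔪)[X]) = 0 := by
    rw [← map_natCast (C : R ⧸ 𝔪 →+* (R ⧸ 𝔪)[X]), hp0, map_zero]
  rw [h5, zero_mul] at h4
  rw [Matrix.map_apply, Matrix.zero_apply, coe_mapRingHom]
  exact (mul_eq_zero.1 h4).resolve_left hF

theorem CancelsAt.zeroAt [CharZero R] {α : Fin n → R} {A : Fin n → Matrix (Fin r) (Fin r) R}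
    {N : R} {p : ℕ} (h : CancelsAt α A N p) (hp : p.Prime) (𝔪 : Ideal R) [𝔪.IsMaximal]
    (hpm : (p : R) ∈ 𝔪) (hN : N ∉ 𝔪) : PCurvZeroAt α A 𝔪 := by
  refine zeroAt_of_mul hp 𝔪 hpm fun i l => ?_
  obtain ⟨P, hP⟩ := h l i
  refine ⟨C N ^ p, ((p - 1).factorial : R[X]) * P, ?_, ?_⟩
  · rw [Polynomial.map_pow, Polynomial.map_C]
    haveI : IsDomain (R ⧸ 𝔪) := Ideal.Quotient.isDomain 𝔪
    refine pow_ne_zero _ ?_
    rw [Ne, C_eq_zero]
    exact fun h0 => hN (Ideal.Quotient.eq_zero_iff_mem.1 h0)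
  · apply toRat_injective
    have hch : CharZero (RatFunc (FractionRing R)) := charZero_of_injective_ringHom
      (f := (toRat R).comp (C : R →+* R[X])) (toRat_injective.comp C_injective)
    have hfac : ((p.factorial : ℕ) : RatFunc (FractionRing R)) ≠ 0 :=
      Nat.cast_ne_zero.2 (Nat.factorial_ne_zero p)
    rw [div_eq_iff hfac, mul_pow, map_mul, map_pow (toRat R) (den α), mul_assoc, iter_toRat] at hP
    rw [map_mul, hP, map_mul, map_mul, map_natCast, map_natCast]
    have h1 : p.factorial = p * (p - 1).factorial := (Nat.mul_factorial_pred hp.ne_zero).symm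
    rw [h1]
    push_cast
    ring

theorem PVanishes.zeroAt {α : Fin n → R} {A : Fin n → Matrix (Fin r) (Fin r) R}
    {F : R[X]} {p : ℕ} (h : PVanishes α A F p) (hp : p.Prime) (𝔪 : Ideal R) [𝔪.IsMaximal]
    (hpm : (p : R) ∈ 𝔪) (hF : F.leadingCoeff ∉ 𝔪) : PCurvZeroAt α A 𝔪 := by
  have hF0 : F ≠ 0 := by
    rintro rfl
    exact hF (by simp)
  refine zeroAt_of_mul hp 𝔪 hpm fun i l => ?_
  obtain ⟨k, P, hP⟩ := h l i
  refine ⟨F ^ k, den α ^ p * P, ?_, ?_⟩
  · haveI : IsDomain (R ⧸ 𝔪) := Ideal.Quotient.isDomain 𝔪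
    rw [Polynomial.map_pow]
    refine pow_ne_zero _ fun h0 => hF ?_
    have h1 := congrArg (fun f => f.coeff F.natDegree) h0
    simp only [coeff_map, coeff_zero] at h1
    exact Ideal.Quotient.eq_zero_iff_mem.1 h1
  · apply toRat_injective
    have h1 : toRat R (F ^ k) ≠ 0 := toRat_ne (pow_ne_zero _ hF0)
    rw [map_mul, ← iter_toRat, hP, map_mul, map_mul, map_natCast, map_pow (toRat R) (den α) p]
    field_simp

end rings

section final

universe u

variable {R : Type u} [CommRing R] [IsDomain R] [CharZero R] [Algebra.FiniteType ℤ R] {n r : ℕ}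

theorem noCancel_of_bad {α : Fin n → R} {A : Fin n → Matrix (Fin r) (Fin r) R} {B : ℕ}
    (h : Pool.Agent.R927.BadMod α A B) : NoCancel α A B := by
  obtain ⟨a, ha, g, hg, P₀, hP⟩ := h
  refine ⟨a, ha, fun N hN => ?_⟩
  obtain ⟨P₁, hP₁⟩ := exists_closed_point R (mul_ne_zero hg hN)
  refine ⟨max P₀ P₁, fun p hp hpP hap hc => ?_⟩
  obtain ⟨𝔪, h𝔪, hpm, hgN⟩ := hP₁ p hp (lt_of_le_of_lt (le_max_right _ _) hpP)
  have hgm : g ∉ 𝔪 := fun h0 => hgN (Ideal.mul_mem_right _ _ h0)
  have hNm : N ∉ 𝔪 := fun h0 => hgN (Ideal.mul_mem_left _ _ h0)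
  exact hP p hp (lt_of_le_of_lt (le_max_left _ _) hpP) hap 𝔪 hpm hgm (hc.zeroAt hp 𝔪 hpm hNm)

theorem noVanish_of_bad {α : Fin n → R} {A : Fin n → Matrix (Fin r) (Fin r) R} {B : ℕ}
    (h : Pool.Agent.R927.BadMod α A B) : NoVanish α A B := by
  obtain ⟨a, ha, g, hg, P₀, hP⟩ := h
  refine ⟨a, ha, fun F hF => ?_⟩
  obtain ⟨P₁, hP₁⟩ := exists_closed_point R (mul_ne_zero hg (leadingCoeff_ne_zero.2 hF))
  refine ⟨max P₀ P₁, fun p hp hpP hap hc => ?_⟩
  obtain ⟨𝔪, h𝔪, hpm, hgF⟩ := hP₁ p hp (lt_of_le_of_lt (le_max_right _ _) hpP)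
  have hgm : g ∉ 𝔪 := fun h0 => hgF (Ideal.mul_mem_right _ _ h0)
  have hFm : F.leadingCoeff ∉ 𝔪 := fun h0 => hgF (Ideal.mul_mem_left _ _ h0)
  exact hP p hp (lt_of_le_of_lt (le_max_left _ _) hpP) hap 𝔪 hpm hgm (hc.zeroAt hp 𝔪 hpm hFm)

/-- a large prime in a residue class -/
lemma exists_prime_class {B : ℕ} (hB : 0 < B) {a : ℤ} (ha : IsCoprime a (B : ℤ)) (P₀ : ℕ) :
    ∃ p : ℕ, p.Prime ∧ P₀ < p ∧ (B : ℤ) ∣ a * p + 1 := by
  haveI : NeZero B := ⟨hB.ne'⟩
  obtain ⟨u, v, huv⟩ := ha
  have h1 : IsUnit ((-u : ℤ) : ZMod B) := by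
    have h2 : ((-u : ℤ) : ZMod B) * ((-a : ℤ) : ZMod B) = 1 := by
      have h3 := congrArg (Int.cast : ℤ → ZMod B) huv
      push_cast at h3 ⊢
      rw [ZMod.natCast_self, mul_zero, add_zero] at h3
      rw [neg_mul_neg, h3]
    exact IsUnit.of_mul_eq_one _ h2
  obtain ⟨p, hpP, hp, hpc⟩ := Nat.forall_exists_prime_gt_and_eq_mod h1 P₀
  refine ⟨p, hp, hpP, ?_⟩
  rw [← ZMod.intCast_zmod_eq_zero_iff_dvd]
  have h3 := congrArg (Int.cast : ℤ → ZMod B) huv
  push_cast at h3 hpc ⊢
  rw [ZMod.natCast_self, mul_zero, add_zero] at h3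
  rw [hpc, mul_neg, mul_comm, h3]
  ring

omit [CharZero R] [Algebra.FiniteType ℤ R] in
theorem NoCancel.not_cancels {α : Fin n → R} {A : Fin n → Matrix (Fin r) (Fin r) R} {B : ℕ}
    (hB : 0 < B) (h : NoCancel α A B) : ¬ Cancels α A := by
  rintro ⟨N, hN, hc⟩
  obtain ⟨a, ha, h1⟩ := h
  obtain ⟨P₀, hP⟩ := h1 N hN
  obtain ⟨p, hp, hpP, hap⟩ := exists_prime_class hB ha P₀
  exact hP p hp hpP hap (hc p hp.one_lt.le)

omit [CharZero R] [Algebra.FiniteType ℤ R] in
theorem NoVanish.not_vanishes {α : Fin n → R} {A : Fin n → Matrix (Fin r) (Fin r) R} {B : ℕ}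
    (hB : 0 < B) (h : NoVanish α A B) : ¬ VanishesAlmost α A := by
  rintro ⟨F, hF, hfin⟩
  obtain ⟨a, ha, h0⟩ := h
  obtain ⟨P₀, hP⟩ := h0 F hF
  obtain ⟨P₁, hP₁⟩ := hfin.bddAbove
  obtain ⟨p, hp, hpP, hap⟩ := exists_prime_class hB ha (max P₀ P₁)
  have h1 := hP p hp (lt_of_le_of_lt (le_max_left _ _) hpP) hap
  have h2 := hP₁ (show p ∈ {p : ℕ | p.Prime ∧ ¬ PVanishes α A F p} from ⟨hp, h1⟩)
  exact absurd (lt_of_le_of_lt (le_max_right P₀ P₁) hpP) (not_lt.2 h2)

end final

end Pool.Agent.R340.CF
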